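import Pool.Agent.H384Z.Rad.Defs
import Pool.Agent.H384Z.Rad.Tree

/-! A radical class of groups closed under Cartesian products that contains an infinite cyclic
group and is not the class of all groups. -/

universe u

namespace Pool.Agent.Results.MP_cf13c7_al.ACartesian

open Pool.Agent.H384Z.Rad

theorem result : ∃ K : (∀ (G : Type u) [Group G], Prop),
    IsRadicalClass K ∧ ClosedUnderProducts K ∧
    (∃ (G : Type u) (_ : Group G), IsCyclic G ∧ Infinite G ∧ K G) ∧
    (∃ (G : Type u) (_ : Group G), ¬ K G) := by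
  refine ⟨fun G _ => K G, ⟨fun _ _ _ _ f hf h => h.image f hf, fun _ _ _ hN h => h.normal hN,
    fun _ _ h => K.join h⟩, fun _ _ _ h => K.pi h, ?_, ⟨ULift.{u} TT, inferInstance, not_K⟩⟩
  exact ⟨ULift.{u} (Multiplicative ℤ), inferInstance,
    (MulEquiv.ulift (α := Multiplicative ℤ)).isCyclic.2 inferInstance, inferInstance,
    K.of_comm fun a b => mul_comm a b⟩

end Pool.Agent.Results.MP_cf13c7_al.ACartesian
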